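import Pool.Agent.Helper69.BQ.St.C
import Pool.Agent.Helper25.RealBound

/-!
# Project BQ, piece C7: the relation given by the fundamental unit of the fixed field of `σ`
-/

namespace Pool.Agent.Helper87.BQ

open Module NumberField Pool.Agent.Helper25.Biq Pool.Agent.Helper69.BQ

variable {K : Type} [Field K] [NumberField K] [IsGalois ℚ K] {g12 g13 g23 : ℤ}

/-- C7 (from C5, `rank_quad_of_real`, `exists_good`). The relation given by the fundamental unit of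
the fixed field of `σ`. -/
theorem exists_rel (D : Dat K g12 g13 g23) (hA : Arith g12 g13 g23) :
    ∃ s : ℚ, Adm (g12 * g13) s ∧ sc (algebraMap ℚ K s) ∈ UCl K ∧
      ∀ q : ℚ, s ≠ q ^ 2 ∧ s ≠ -q ^ 2 ∧ s ≠ (g12 * g13 : ℤ) * q ^ 2 ∧
        s ≠ -((g12 * g13 : ℤ) * q ^ 2) := by
  obtain ⟨φ, hφ⟩ := D.real
  have hrk : 1 ≤ Units.rank (fx D.σ) :=
    rank_quad_of_real (finrank_fx_two D.v4) (hφ.comp (algebraMap (fx D.σ) K))
  obtain ⟨u, hu⟩ := exists_good hrk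
  -- the unit as an element of `K`
  set δF : fx D.σ := algebraMap (𝓞 (fx D.σ)) (fx D.σ) u with hδF
  have hδF0 : δF ≠ 0 := alg_ne_zero u.ne_zero
  set δ : K := (δF : K) with hδ
  have hδ0 : δ ≠ 0 := fun h => hδF0 (Subtype.ext h)
  have hint : IsIntegral ℤ δ :=
    (RingOfIntegers.isIntegral_coe (u : 𝓞 (fx D.σ))).map (IntermediateField.val (fx D.σ)).toIntAlgHom
  have hint' : IsIntegral ℤ δ⁻¹ := by
    have h1 : δ⁻¹ = ((algebraMap (𝓞 (fx D.σ)) (fx D.σ) (u⁻¹ : (𝓞 (fx D.σ))ˣ) : fx D.σ) : K) := by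
      apply inv_eq_of_mul_eq_one_right
      have h2 : δF * algebraMap (𝓞 (fx D.σ)) (fx D.σ) (u⁻¹ : (𝓞 (fx D.σ))ˣ) = 1 := by
        rw [hδF, ← map_mul, ← Units.val_mul, mul_inv_cancel, Units.val_one, map_one]
      exact congrArg (Subtype.val) h2
    rw [h1]
    exact (RingOfIntegers.isIntegral_coe ((u⁻¹ : (𝓞 (fx D.σ))ˣ) : 𝓞 (fx D.σ))).map
      (IntermediateField.val (fx D.σ)).toIntAlgHom
  obtain ⟨-, s, γ, hγ0, hγ, hδs, hadm⟩ := unit_fix D hA hint hint' hδ0 (apply_fx δF)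
  have hs0 : algebraMap ℚ K s ≠ 0 := by
    intro h0
    rw [h0, zero_mul] at hδs
    exact hδ0 hδs
  set γF : fx D.σ := ⟨γ, mem_fx.2 hγ⟩ with hγF
  have hδFs : δF = algebraMap ℚ (fx D.σ) s * γF ^ 2 := Subtype.ext hδs
  -- if `s` is `± x²` in the fixed field, contradiction
  have key : ∀ x : fx D.σ, algebraMap ℚ (fx D.σ) s ≠ x ^ 2 := by
    intro x hx
    apply hu
    have h1 : scU u = 0 := by
      refine (sc_eq_zero hδF0).2 ⟨x * γF, ?_⟩
      rw [mul_pow, ← hx]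
      exact hδFs
    rw [h1]
    exact Submodule.zero_mem _
  have key' : ∀ x : fx D.σ, algebraMap ℚ (fx D.σ) s ≠ -x ^ 2 := by
    intro x hx
    apply hu
    have h1 : scU u = sc (-1 : fx D.σ) := by
      refine (sc_eq_iff hδF0 (neg_ne_zero.2 one_ne_zero)).2 ⟨x * γF, ?_, ?_⟩
      · intro h0
        apply hδF0
        have h2 : x ^ 2 * γF ^ 2 = 0 := by rw [← mul_pow, h0, zero_pow two_ne_zero]
        rw [hδFs, hx, neg_mul, h2, neg_zero]
      · rw [mul_pow, neg_mul, one_mul, ← neg_mul, ← hx]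
        exact hδFs
    rw [h1]
    exact Submodule.mem_span_singleton_self _
  set sF : fx D.σ := ⟨D.s1, mem_fx.2 D.σ1⟩ with hsF
  have hsF2 : sF ^ 2 = algebraMap ℚ (fx D.σ) ((g12 * g13 : ℤ) : ℚ) := by
    apply Subtype.ext
    have h1 : D.s1 ^ 2 = ((g12 * g13 : ℤ) : K) := D.q1
    have h2 : ((algebraMap ℚ (fx D.σ) ((g12 * g13 : ℤ) : ℚ) : fx D.σ) : K) =
        ((g12 * g13 : ℤ) : K) := by
      rw [map_intCast]
      rfl
    rw [h2]
    exact h1
  refine ⟨s, hadm, ?_, fun q => ⟨?_, ?_, ?_, ?_⟩⟩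
  · have h1 : sc (algebraMap ℚ K s) = scU (uMap D.σ u) := by
      have h2 : scU (uMap D.σ u) = sc δ := rfl
      rw [h2, hδs, sc_mul hs0 (pow_ne_zero 2 hγ0), sc_sq, add_zero]
    rw [h1]
    exact ⟨_, rfl⟩
  · intro h
    apply key (algebraMap ℚ (fx D.σ) q)
    rw [h, map_pow]
  · intro h
    apply key' (algebraMap ℚ (fx D.σ) q)
    rw [h, map_neg, map_pow]
  · intro h
    apply key (sF * algebraMap ℚ (fx D.σ) q)
    rw [h, map_mul, map_pow, mul_pow, hsF2]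
  · intro h
    apply key' (sF * algebraMap ℚ (fx D.σ) q)
    rw [h, map_neg, map_mul, map_pow, mul_pow, hsF2]

end Pool.Agent.Helper87.BQ
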